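import Pool.Agent.Helper43.SH.One

/-!
# SHEET, module EXIST, part 2: the random series
-/

open MeasureTheory ProbabilityTheory Filter Topology

namespace Sheet.Ex

/-- indices: level vector and position vector -/
abbrev Ix (d : ℕ) : Type := Σ _ : (Fin d → ℕ), (Fin d → ℕ)

/-- independent standard Gaussian variables -/
noncomputable def PP (d : ℕ) : Measure (Ix d → ℝ) :=
  Measure.infinitePi (fun _ : Ix d => gaussianReal 0 1)

instance (d : ℕ) : IsProbabilityMeasure (PP d) := by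
  unfold PP
  infer_instance

/-- positions at a given level vector -/
def KK {d : ℕ} (m : Fin d → ℕ) : Finset (Fin d → ℕ) :=
  Fintype.piFinset (fun i => Finset.range (2 ^ (m i - 1)))

/-- product functions -/
noncomputable def phD {d : ℕ} (i : Ix d) (x : Fin d → ℝ) : ℝ := ∏ j, ph (i.1 j) (i.2 j) (x j)

/-- block of a level vector -/
noncomputable def YY {d : ℕ} (m : Fin d → ℕ) (x : Fin d → ℝ) (ω : Ix d → ℝ) : ℝ :=
  ∑ k ∈ KK m, ω ⟨m, k⟩ * phD ⟨m, k⟩ x

/-- fourth moments of the coefficients of a block -/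
noncomputable def UU {d : ℕ} (m : Fin d → ℕ) (ω : Ix d → ℝ) : ℝ := ∑ k ∈ KK m, ω ⟨m, k⟩ ^ 4

lemma UU_nonneg {d : ℕ} (m : Fin d → ℕ) (ω : Ix d → ℝ) : 0 ≤ UU m ω :=
  Finset.sum_nonneg fun k _ => by positivity

lemma card_KK {d : ℕ} (m : Fin d → ℕ) : (KK m).card ≤ 2 ^ ∑ i, m i := by
  unfold KK
  rw [Fintype.card_piFinset, ← Finset.prod_pow_eq_pow_sum]
  apply Finset.prod_le_prod'
  intro i _
  rw [Finset.card_range]
  exact Nat.pow_le_pow_right (by norm_num) (Nat.sub_le _ _)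

/-- every point sees at most one index of a block -/
lemma phD_single {d : ℕ} (m : Fin d → ℕ) (x : Fin d → ℝ) (hx : ∀ i, 0 ≤ x i) :
    ∃ k0, ∀ k ∈ KK m, k ≠ k0 → phD ⟨m, k⟩ x = 0 := by
  choose k0 hk0 using fun i => ph_single (m i) (hx i)
  refine ⟨k0, fun k hk hne => ?_⟩
  obtain ⟨i, hi⟩ := Function.ne_iff.mp hne
  apply Finset.prod_eq_zero (Finset.mem_univ i)
  apply hk0 i (k i) _ hi
  have := (Fintype.mem_piFinset.mp hk) i
  exact Finset.mem_range.mp this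

lemma phD_abs_le {d : ℕ} (i : Ix d) (x : Fin d → ℝ) (hx : ∀ i, 0 ≤ x i ∧ x i ≤ 1) :
    |phD i x| ≤ (1 / √2) ^ ∑ j, i.1 j := by
  unfold phD
  rw [Finset.abs_prod, ← Finset.prod_pow_eq_pow_sum]
  apply Finset.prod_le_prod
  · intro j _
    exact abs_nonneg _
  · intro j _
    exact ph_abs_le _ _ (hx j).1 (hx j).2

lemma sqrt_pow4 (n : ℕ) : (((1 : ℝ) / √2) ^ n) ^ 4 = (1 / 4) ^ n := by
  rw [← pow_mul, mul_comm, pow_mul]
  congr 1
  have : √2 ^ 2 = 2 := Real.sq_sqrt (by norm_num)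
  have h : √2 ^ 4 = 4 := by
    calc √2 ^ 4 = (√2 ^ 2) ^ 2 := by ring
      _ = 4 := by rw [this]; norm_num
  rw [div_pow, h, one_pow]

lemma YY_pow_le {d : ℕ} (m : Fin d → ℕ) (x : Fin d → ℝ) (hx : ∀ i, 0 ≤ x i ∧ x i ≤ 1)
    (ω : Ix d → ℝ) : YY m x ω ^ 4 ≤ UU m ω * (1 / 4) ^ ∑ i, m i := by
  obtain ⟨k0, hk0⟩ := phD_single m x fun i => (hx i).1
  by_cases h : k0 ∈ KK m
  · have h1 : YY m x ω = ω ⟨m, k0⟩ * phD ⟨m, k0⟩ x := by
      unfold YY
      apply Finset.sum_eq_single_of_mem _ h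
      intro k hk hne
      rw [hk0 k hk hne, mul_zero]
    have h2 : ω ⟨m, k0⟩ ^ 4 ≤ UU m ω := by
      unfold UU
      exact Finset.single_le_sum (f := fun k => ω ⟨m, k⟩ ^ 4) (fun k _ => by positivity) h
    have h3 : phD ⟨m, k0⟩ x ^ 4 ≤ (1 / 4) ^ ∑ i, m i := by
      calc phD ⟨m, k0⟩ x ^ 4 = |phD ⟨m, k0⟩ x| ^ 4 := by
            rw [← abs_pow, abs_of_nonneg (by positivity)]
        _ ≤ ((1 / √2) ^ ∑ j, m j) ^ 4 :=
            pow_le_pow_left₀ (abs_nonneg _) (phD_abs_le ⟨m, k0⟩ x hx) 4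
        _ = _ := sqrt_pow4 _
    rw [h1, mul_pow]
    exact mul_le_mul h2 h3 (by positivity) (UU_nonneg _ _)
  · have h1 : YY m x ω = 0 := by
      unfold YY
      apply Finset.sum_eq_zero
      intro k hk
      rw [hk0 k hk (fun h' => h (h' ▸ hk)), mul_zero]
    rw [h1, zero_pow (by norm_num)]
    have := UU_nonneg m ω
    positivity

/-- geometric series over level vectors -/
lemma summable_pi {d : ℕ} {r : ℝ} (h0 : 0 ≤ r) (h1 : r < 1) :
    Summable (fun m : Fin d → ℕ => r ^ ∑ i, m i) := by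
  induction d with
  | zero => exact Summable.of_finite
  | succ d ih =>
    rw [← (Fin.consEquiv (fun _ : Fin (d + 1) => ℕ)).summable_iff]
    have h2 : ((fun m : Fin (d + 1) → ℕ => r ^ ∑ i, m i) ∘ (Fin.consEquiv (fun _ : Fin (d + 1) => ℕ)))
        = fun p : ℕ × (Fin d → ℕ) => r ^ p.1 * r ^ ∑ i, p.2 i := by
      funext p
      simp [Fin.consEquiv, Fin.sum_univ_succ, pow_add]
    rw [h2]
    exact (summable_geometric_of_lt_one h0 h1).mul_of_nonneg ih (fun _ => by positivity)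
      (fun _ => by positivity)

/-- fourth moment of a standard Gaussian -/
noncomputable def M4 : ENNReal := ∫⁻ x : ℝ, ENNReal.ofReal (x ^ 4) ∂(gaussianReal 0 1)

lemma M4_lt : M4 < ⊤ := by
  have h1 : MemLp id 4 (gaussianReal 0 1) := memLp_id_gaussianReal 4
  have h2 : Integrable (fun x : ℝ => x ^ 4) (gaussianReal 0 1) := by
    have := h1.integrable_norm_pow (p := 4) (by norm_num)
    refine this.congr (Eventually.of_forall fun x => ?_)
    simp only [id, Real.norm_eq_abs]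
    rw [← abs_pow, abs_of_nonneg (by positivity)]
  have h3 := h2.2
  unfold M4
  rw [hasFiniteIntegral_iff_ofReal (Eventually.of_forall fun x => by positivity)] at h3
  exact h3

lemma lint_coord {d : ℕ} (i : Ix d) : ∫⁻ ω, ENNReal.ofReal (ω i ^ 4) ∂(PP d) = M4 := by
  have h : MeasurePreserving (Function.eval i) (PP d) (gaussianReal 0 1) :=
    measurePreserving_eval_infinitePi _ i
  have h2 := h.lintegral_comp (f := fun x : ℝ => ENNReal.ofReal (x ^ 4)) (by fun_prop)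
  exact h2

lemma lint_UU {d : ℕ} (m : Fin d → ℕ) :
    ∫⁻ ω, ENNReal.ofReal (UU m ω) ∂(PP d) ≤ ENNReal.ofReal (2 ^ ∑ i, m i) * M4 := by
  unfold UU
  have h1 : ∀ ω : Ix d → ℝ, ENNReal.ofReal (∑ k ∈ KK m, ω ⟨m, k⟩ ^ 4)
      = ∑ k ∈ KK m, ENNReal.ofReal (ω ⟨m, k⟩ ^ 4) := by
    intro ω
    rw [ENNReal.ofReal_sum_of_nonneg]
    intro k _
    positivity
  simp only [h1]
  rw [lintegral_finsetSum _ (fun k _ => by fun_prop)]
  simp only [lint_coord]
  rw [Finset.sum_const, nsmul_eq_mul]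
  gcongr
  rw [← ENNReal.ofReal_natCast]
  apply ENNReal.ofReal_le_ofReal
  exact_mod_cast card_KK m

lemma ae_bound (d : ℕ) :
    ∀ᵐ ω ∂(PP d), ∃ C : ℝ, 0 ≤ C ∧ ∀ m : Fin d → ℕ, UU m ω ≤ C * 3 ^ ∑ i, m i := by
  have h1 : ∫⁻ ω, ∑' m : Fin d → ℕ, ENNReal.ofReal (UU m ω * (1 / 3) ^ ∑ i, m i) ∂(PP d) < ⊤ := by
    rw [lintegral_tsum]
    · have h2 : ∀ m : Fin d → ℕ, ∫⁻ ω, ENNReal.ofReal (UU m ω * (1 / 3) ^ ∑ i, m i) ∂(PP d)
          ≤ ENNReal.ofReal ((2 / 3) ^ ∑ i, m i) * M4 := by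
        intro m
        have h3 : ∀ ω : Ix d → ℝ, ENNReal.ofReal (UU m ω * (1 / 3) ^ ∑ i, m i)
            = ENNReal.ofReal (UU m ω) * ENNReal.ofReal ((1 / 3) ^ ∑ i, m i) := by
          intro ω
          exact ENNReal.ofReal_mul (UU_nonneg _ _)
        simp only [h3]
        rw [lintegral_mul_const _ (by unfold UU; fun_prop)]
        calc (∫⁻ ω, ENNReal.ofReal (UU m ω) ∂(PP d)) * ENNReal.ofReal ((1 / 3) ^ ∑ i, m i)
            ≤ ENNReal.ofReal (2 ^ ∑ i, m i) * M4 * ENNReal.ofReal ((1 / 3) ^ ∑ i, m i) := by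
              gcongr
              exact lint_UU m
          _ = ENNReal.ofReal (2 ^ ∑ i, m i) * ENNReal.ofReal ((1 / 3) ^ ∑ i, m i) * M4 := by ring
          _ = ENNReal.ofReal ((2 / 3) ^ ∑ i, m i) * M4 := by
              rw [← ENNReal.ofReal_mul (by positivity), ← mul_pow]
              norm_num
      calc ∑' m : Fin d → ℕ, ∫⁻ ω, ENNReal.ofReal (UU m ω * (1 / 3) ^ ∑ i, m i) ∂(PP d)
          ≤ ∑' m : Fin d → ℕ, ENNReal.ofReal ((2 / 3) ^ ∑ i, m i) * M4 := ENNReal.tsum_le_tsum h2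
        _ = (∑' m : Fin d → ℕ, ENNReal.ofReal ((2 / 3) ^ ∑ i, m i)) * M4 := ENNReal.tsum_mul_right
        _ < ⊤ := by
            apply ENNReal.mul_lt_top _ M4_lt
            rw [← ENNReal.ofReal_tsum_of_nonneg (fun _ => by positivity)
              (summable_pi (by norm_num) (by norm_num))]
            exact ENNReal.ofReal_lt_top
    · intro m
      apply Measurable.aemeasurable
      unfold UU
      fun_prop
  have h4 : AEMeasurable (fun ω : Ix d → ℝ => ∑' m : Fin d → ℕ,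
      ENNReal.ofReal (UU m ω * (1 / 3) ^ ∑ i, m i)) (PP d) := by
    apply Measurable.aemeasurable
    apply Measurable.tsum
    intro m
    unfold UU
    fun_prop
  filter_upwards [ae_lt_top' h4 h1.ne] with ω hω
  refine ⟨(∑' m : Fin d → ℕ, ENNReal.ofReal (UU m ω * (1 / 3) ^ ∑ i, m i)).toReal,
    ENNReal.toReal_nonneg, fun m => ?_⟩
  have h5 : ENNReal.ofReal (UU m ω * (1 / 3) ^ ∑ i, m i)
      ≤ ∑' m : Fin d → ℕ, ENNReal.ofReal (UU m ω * (1 / 3) ^ ∑ i, m i) :=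
    ENNReal.le_tsum (f := fun m : Fin d → ℕ => ENNReal.ofReal (UU m ω * (1 / 3) ^ ∑ i, m i)) m
  have h6 : UU m ω * (1 / 3) ^ ∑ i, m i
      ≤ (∑' m : Fin d → ℕ, ENNReal.ofReal (UU m ω * (1 / 3) ^ ∑ i, m i)).toReal :=
    (ENNReal.ofReal_le_iff_le_toReal hω.ne).mp h5
  calc UU m ω = (UU m ω * (1 / 3) ^ ∑ i, m i) * 3 ^ ∑ i, m i := by
        rw [mul_assoc, ← mul_pow]
        norm_num
    _ ≤ _ := by gcongr

/-- the field -/
noncomputable def BB {d : ℕ} (x : Fin d → unitInterval) (ω : Ix d → ℝ) : ℝ :=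
  ∑' m : Fin d → ℕ, YY m (fun i => (x i : ℝ)) ω

lemma YY_le_of {d : ℕ} {ω : Ix d → ℝ} {C : ℝ} (hC0 : 0 ≤ C)
    (hC : ∀ m : Fin d → ℕ, UU m ω ≤ C * 3 ^ ∑ i, m i) (m : Fin d → ℕ) (x : Fin d → unitInterval) :
    ‖YY m (fun i => (x i : ℝ)) ω‖ ≤ √(√C) * √(√(3 / 4)) ^ ∑ i, m i := by
  rw [Real.norm_eq_abs]
  have hx : ∀ i, 0 ≤ (x i : ℝ) ∧ (x i : ℝ) ≤ 1 := fun i => ⟨(x i).2.1, (x i).2.2⟩
  have h1 := YY_pow_le m (fun i => (x i : ℝ)) hx ω
  have h4 : ∀ a : ℝ, 0 ≤ a → √(√a) ^ 4 = a := by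
    intro a ha
    calc √(√a) ^ 4 = (√(√a) ^ 2) ^ 2 := by ring
      _ = a := by rw [Real.sq_sqrt (Real.sqrt_nonneg _), Real.sq_sqrt ha]
  apply (pow_le_pow_iff_left₀ (abs_nonneg _) (by positivity) (n := 4) (by norm_num)).mp
  rw [mul_pow, h4 C hC0, ← pow_mul, mul_comm (∑ i, m i) 4, pow_mul, h4 _ (by norm_num),
    ← abs_pow, abs_of_nonneg (by positivity)]
  calc YY m (fun i => (x i : ℝ)) ω ^ 4 ≤ UU m ω * (1 / 4) ^ ∑ i, m i := h1
    _ ≤ (C * 3 ^ ∑ i, m i) * (1 / 4) ^ ∑ i, m i := by gcongr; exact hC m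
    _ = C * (3 / 4) ^ ∑ i, m i := by
        rw [mul_assoc, ← mul_pow]
        norm_num

lemma rr_lt : √(√(3 / 4 : ℝ)) < 1 := by
  rw [Real.sqrt_lt' (by norm_num), Real.sqrt_lt' (by norm_num)]
  norm_num

lemma summable_bd {d : ℕ} (C : ℝ) :
    Summable (fun m : Fin d → ℕ => √(√C) * √(√(3 / 4)) ^ ∑ i, m i) :=
  (summable_pi (Real.sqrt_nonneg _) rr_lt).mul_left _

lemma continuous_YY {d : ℕ} (m : Fin d → ℕ) (ω : Ix d → ℝ) :
    Continuous (fun x : Fin d → unitInterval => YY m (fun i => (x i : ℝ)) ω) := by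
  unfold YY phD
  apply continuous_finsetSum
  intro k _
  apply continuous_const.mul
  apply continuous_finsetProd
  intro j _
  exact (continuous_ph _ _).comp (by fun_prop)

lemma continuous_BB {d : ℕ} :
    ∀ᵐ ω ∂(PP d), Continuous (fun x : Fin d → unitInterval => BB x ω) := by
  filter_upwards [ae_bound d] with ω hω
  obtain ⟨C, hC0, hC⟩ := hω
  exact continuous_tsum (fun m => continuous_YY m ω) (summable_bd C) (fun m x => YY_le_of hC0 hC m x)

/-- boxes of level vectors -/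
def box (d n : ℕ) : Finset (Fin d → ℕ) := Fintype.piFinset (fun _ : Fin d => Finset.range n)

lemma tendsto_box (d : ℕ) : Tendsto (box d) atTop atTop := by
  apply tendsto_atTop_finset_of_monotone
  · intro a b hab
    apply Fintype.piFinset_subset
    intro i
    exact Finset.range_mono hab
  · intro m
    refine ⟨(Finset.univ.sup m) + 1, ?_⟩
    unfold box
    rw [Fintype.mem_piFinset]
    intro i
    rw [Finset.mem_range]
    have := Finset.le_sup (f := m) (Finset.mem_univ i)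
    omega

/-- partial sums -/
noncomputable def Bn {d : ℕ} (n : ℕ) (x : Fin d → unitInterval) (ω : Ix d → ℝ) : ℝ :=
  ∑ m ∈ box d n, YY m (fun i => (x i : ℝ)) ω

lemma measurable_Bn {d : ℕ} (n : ℕ) (x : Fin d → unitInterval) : Measurable (Bn n x) := by
  unfold Bn YY
  fun_prop

lemma tendsto_Bn (d : ℕ) : ∀ᵐ ω ∂(PP d), ∀ x : Fin d → unitInterval,
    Tendsto (fun n => Bn n x ω) atTop (𝓝 (BB x ω)) := by
  filter_upwards [ae_bound d] with ω hω x
  obtain ⟨C, hC0, hC⟩ := hω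
  have h1 : Summable (fun m : Fin d → ℕ => YY m (fun i => (x i : ℝ)) ω) :=
    Summable.of_norm_bounded (summable_bd C) (fun m => YY_le_of hC0 hC m x)
  exact h1.hasSum.comp (tendsto_box d)

lemma aemeasurable_BB {d : ℕ} (x : Fin d → unitInterval) : AEMeasurable (BB x) (PP d) := by
  apply aemeasurable_of_tendsto_metrizable_ae atTop (fun n => (measurable_Bn n x).aemeasurable)
  filter_upwards [tendsto_Bn d] with ω hω
  exact hω x

end Sheet.Ex
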