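import Pool.Agent.Helper43.SH.Field

/-!
# SHEET, module EXIST, part 3: law of the field, existence of the Brownian sheet
-/

open MeasureTheory ProbabilityTheory Filter Topology

namespace Sheet.Ex

lemma charFun_gauss (t : ℝ) :
    ∫ x : ℝ, Complex.exp ((t : ℂ) * (x : ℂ) * Complex.I) ∂(gaussianReal 0 1)
      = Complex.exp (-(t : ℂ) ^ 2 / 2) := by
  rw [← charFun_apply_real, charFun_gaussianReal]
  congr 1
  simp
  ring

lemma char_pi {s : Type} [Fintype s] (φ : s → ℝ) :
    ∫ y : s → ℝ, Complex.exp (((∑ i, y i * φ i : ℝ) : ℂ) * Complex.I)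
        ∂(Measure.pi fun _ : s => gaussianReal 0 1)
      = Complex.exp (((-(∑ i, φ i ^ 2) / 2 : ℝ) : ℂ)) := by
  have h1 : ∀ y : s → ℝ, Complex.exp (((∑ i, y i * φ i : ℝ) : ℂ) * Complex.I)
      = ∏ i, Complex.exp ((φ i : ℂ) * (y i : ℂ) * Complex.I) := by
    intro y
    rw [← Complex.exp_sum, ← Finset.sum_mul]
    congr 2
    push_cast
    exact Finset.sum_congr rfl fun i _ => mul_comm _ _
  simp only [h1]
  rw [integral_fintype_prod_eq_prod (μ := fun _ : s => gaussianReal 0 1)
    (f := fun (i : s) (x : ℝ) => Complex.exp ((φ i : ℂ) * (x : ℂ) * Complex.I))]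
  simp only [charFun_gauss]
  rw [← Complex.exp_sum]
  congr 1
  push_cast
  rw [neg_div, Finset.sum_div, ← Finset.sum_neg_distrib]
  exact Finset.sum_congr rfl fun i _ => by ring

lemma char_lin {d : ℕ} (F : Finset (Ix d)) (φ : Ix d → ℝ) :
    ∫ ω, Complex.exp (((∑ i ∈ F, ω i * φ i : ℝ) : ℂ) * Complex.I) ∂(PP d)
      = Complex.exp (((-(∑ i ∈ F, φ i ^ 2) / 2 : ℝ) : ℂ)) := by
  have h := integral_restrict_infinitePi (μ := fun _ : Ix d => gaussianReal 0 1) (s := F)
    (f := fun y : F → ℝ => Complex.exp (((∑ i, y i * φ i : ℝ) : ℂ) * Complex.I))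
    (by apply Measurable.aestronglyMeasurable; fun_prop)
  rw [char_pi] at h
  have h2 : ∀ ω : Ix d → ℝ, (∑ i : F, (F.restrict ω) i * φ i) = ∑ i ∈ F, ω i * φ i := by
    intro ω
    exact Finset.sum_coe_sort F (fun i => ω i * φ i)
  simp only [h2] at h
  rw [Finset.sum_coe_sort F (fun i => φ i ^ 2)] at h
  exact h

/-- kernel of the partial sums -/
noncomputable def Kn {d : ℕ} (n : ℕ) (x y : Fin d → ℝ) : ℝ :=
  ∏ i, ∑ m ∈ Finset.range n, c1 m (x i) (y i)

/-- indices of a box -/
def FF (d n : ℕ) : Finset (Ix d) := (box d n).sigma fun m => KK m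

lemma sum_FF {d n : ℕ} (x y : Fin d → ℝ) : ∑ i ∈ FF d n, phD i x * phD i y = Kn n x y := by
  unfold FF Kn box
  rw [Finset.sum_sigma, Finset.prod_univ_sum]
  apply Finset.sum_congr rfl
  intro m _
  unfold c1 KK
  rw [Finset.prod_univ_sum]
  apply Finset.sum_congr rfl
  intro k _
  unfold phD
  rw [← Finset.prod_mul_distrib]

lemma Bn_eq {d : ℕ} (n : ℕ) (x : Fin d → unitInterval) (ω : Ix d → ℝ) :
    Bn n x ω = ∑ i ∈ FF d n, ω i * phD i (fun j => (x j : ℝ)) := by
  unfold Bn YY FF
  rw [Finset.sum_sigma]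

lemma char_Bn {d : ℕ} {Q : Type} [Fintype Q] (p : Q → Fin d → unitInterval) (a : Q → ℝ) (n : ℕ) :
    ∫ ω, Complex.exp (((∑ q, a q * Bn n (p q) ω : ℝ) : ℂ) * Complex.I) ∂(PP d)
      = Complex.exp (((-(∑ q, ∑ q', a q * a q' *
          Kn n (fun i => (p q i : ℝ)) (fun i => (p q' i : ℝ))) / 2 : ℝ) : ℂ)) := by
  have h1 : ∀ ω : Ix d → ℝ, ∑ q, a q * Bn n (p q) ω
      = ∑ i ∈ FF d n, ω i * ∑ q, a q * phD i (fun j => (p q j : ℝ)) := by
    intro ω
    simp only [Bn_eq, Finset.mul_sum]
    rw [Finset.sum_comm]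
    exact Finset.sum_congr rfl fun i _ => Finset.sum_congr rfl fun q _ => by ring
  simp only [h1]
  rw [char_lin]
  have h2 : ∑ i ∈ FF d n, (∑ q, a q * phD i (fun j => (p q j : ℝ))) ^ 2
      = ∑ q, ∑ q', a q * a q' * Kn n (fun i => (p q i : ℝ)) (fun i => (p q' i : ℝ)) := by
    have h3 : ∀ i : Ix d, (∑ q, a q * phD i (fun j => (p q j : ℝ))) ^ 2
        = ∑ q, ∑ q', (a q * phD i (fun j => (p q j : ℝ))) * (a q' * phD i (fun j => (p q' j : ℝ))) := by
      intro i
      rw [sq, Finset.sum_mul_sum]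
    simp only [h3]
    rw [Finset.sum_comm]
    apply Finset.sum_congr rfl
    intro q _
    rw [Finset.sum_comm]
    apply Finset.sum_congr rfl
    intro q' _
    rw [← sum_FF, Finset.mul_sum]
    exact Finset.sum_congr rfl fun i _ => by ring
  rw [h2]

lemma tendsto_Kn {d : ℕ} (x y : Fin d → unitInterval) :
    Tendsto (fun n => Kn n (fun i => (x i : ℝ)) (fun i => (y i : ℝ))) atTop
      (𝓝 (∏ i, min (x i : ℝ) (y i : ℝ))) := by
  unfold Kn
  apply tendsto_finsetProd
  intro i _
  exact tendsto_c1 (x i).2 (y i).2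

lemma isGK_BB {d : ℕ} {Q : Type} [Fintype Q] (p : Q → Fin d → unitInterval) :
    IsGK ((PP d).map (fun ω z => BB (p z) ω)) (fun y z => ∏ i, min (p y i : ℝ) (p z i : ℝ)) := by
  have hm : AEMeasurable (fun (ω : Ix d → ℝ) (z : Q) => BB (p z) ω) (PP d) :=
    aemeasurable_pi_lambda _ fun z => aemeasurable_BB (p z)
  refine ⟨Measure.isProbabilityMeasure_map hm, fun a => ?_⟩
  rw [integral_map hm (by apply Measurable.aestronglyMeasurable; fun_prop)]
  have h1 : Tendsto (fun n => ∫ ω, Complex.exp (((∑ q, a q * Bn n (p q) ω : ℝ) : ℂ) * Complex.I)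
      ∂(PP d)) atTop (𝓝 (∫ ω, Complex.exp (((∑ q, a q * BB (p q) ω : ℝ) : ℂ) * Complex.I)
      ∂(PP d))) := by
    apply tendsto_integral_of_dominated_convergence (fun _ => (1 : ℝ))
    · intro n
      apply Measurable.aestronglyMeasurable
      have := fun q => measurable_Bn (d := d) n (p q)
      fun_prop
    · exact integrable_const _
    · intro n
      apply Eventually.of_forall
      intro ω
      rw [Complex.norm_exp_ofReal_mul_I]
    · filter_upwards [tendsto_Bn d] with ω hω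
      have h2 : Tendsto (fun n => ∑ q, a q * Bn n (p q) ω) atTop (𝓝 (∑ q, a q * BB (p q) ω)) :=
        tendsto_finsetSum _ fun q _ => (hω (p q)).const_mul (a q)
      have hc : Continuous (fun r : ℝ => Complex.exp ((r : ℂ) * Complex.I)) := by fun_prop
      exact (hc.tendsto _).comp h2
  have h3 : Tendsto (fun n => Complex.exp (((-(∑ q, ∑ q', a q * a q' *
          Kn n (fun i => (p q i : ℝ)) (fun i => (p q' i : ℝ))) / 2 : ℝ) : ℂ))) atTop
      (𝓝 (Complex.exp (((-(∑ q, ∑ q', a q * a q' *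
          ∏ i, min (p q i : ℝ) (p q' i : ℝ)) / 2 : ℝ) : ℂ)))) := by
    have hc : Continuous (fun r : ℝ => Complex.exp (((-r / 2 : ℝ) : ℂ))) := by fun_prop
    refine (hc.tendsto _).comp ?_
    apply tendsto_finsetSum
    intro q _
    apply tendsto_finsetSum
    intro q' _
    exact (tendsto_Kn (p q) (p q')).const_mul _
  have h4 := h1.congr fun n => char_Bn p a n
  exact tendsto_nhds_unique h4 h3

lemma quad_nonneg {Q : Type} [Fintype Q] {μ : Measure (Q → ℝ)} {K : Q → Q → ℝ} (h : IsGK μ K)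
    (a : Q → ℝ) : 0 ≤ ∑ x, ∑ y, a x * a y * K x y := by
  have hp := h.1
  have h1 := h.2 a
  have h2 : ‖∫ f, Complex.exp (((∑ x, a x * f x : ℝ) : ℂ) * Complex.I) ∂μ‖ ≤ 1 := by
    calc _ ≤ ∫ f : Q → ℝ, (1 : ℝ) ∂μ := by
          apply norm_integral_le_of_norm_le (integrable_const _)
          apply Eventually.of_forall
          intro ω
          rw [Complex.norm_exp_ofReal_mul_I]
      _ = 1 := by simp
  rw [h1, Complex.norm_exp, Complex.ofReal_re, Real.exp_le_one_iff] at h2
  linarith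

lemma map_lin {Q : Type} [Fintype Q] {μ : Measure (Q → ℝ)} {K : Q → Q → ℝ} (h : IsGK μ K)
    (a : Q → ℝ) : μ.map (fun f => ∑ x, a x * f x)
      = gaussianReal 0 (∑ x, ∑ y, a x * a y * K x y).toNNReal := by
  have hp := h.1
  have hm : AEMeasurable (fun f : Q → ℝ => ∑ x, a x * f x) μ :=
    (by fun_prop : Measurable (fun f : Q → ℝ => ∑ x, a x * f x)).aemeasurable
  have hp2 : IsProbabilityMeasure (μ.map (fun f => ∑ x, a x * f x)) :=
    Measure.isProbabilityMeasure_map hm
  apply Measure.ext_of_charFun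
  funext t
  rw [charFun_gaussianReal, charFun_apply_real, integral_map hm
    (by apply Measurable.aestronglyMeasurable; fun_prop)]
  have h1 := h.2 (fun x => t * a x)
  have h2 : ∀ f : Q → ℝ, (((∑ x, t * a x * f x : ℝ) : ℂ) * Complex.I)
      = (t : ℂ) * ((∑ x, a x * f x : ℝ) : ℂ) * Complex.I := by
    intro f
    congr 1
    push_cast
    rw [Finset.mul_sum]
    exact Finset.sum_congr rfl fun i _ => by ring
  simp only [h2] at h1
  rw [h1]
  congr 1
  rw [Real.coe_toNNReal _ (quad_nonneg h a)]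
  have h3 : ∑ x, ∑ y, t * a x * (t * a y) * K x y = t ^ 2 * ∑ x, ∑ y, a x * a y * K x y := by
    rw [Finset.mul_sum]
    apply Finset.sum_congr rfl
    intro x _
    rw [Finset.mul_sum]
    exact Finset.sum_congr rfl fun i _ => by ring
  rw [h3]
  push_cast
  ring

lemma isGaussian_of_isGK {Q : Type} [Fintype Q] {μ : Measure (Q → ℝ)} {K : Q → Q → ℝ}
    (h : IsGK μ K) : IsGaussian μ := by
  classical
  apply isGaussian_of_map_eq_gaussianReal
  intro L
  refine ⟨0, (∑ x, ∑ y, L (Pi.single x 1) * L (Pi.single y 1) * K x y).toNNReal, ?_⟩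
  rw [← map_lin h (fun q => L (Pi.single q 1))]
  congr 1
  funext f
  have h1 := LinearMap.pi_apply_eq_sum_univ (L : (Q → ℝ) →ₗ[ℝ] ℝ) f
  have h2 : L f = ∑ i, f i • L (fun j => if i = j then 1 else 0) := h1
  rw [h2]
  apply Finset.sum_congr rfl
  intro i _
  rw [smul_eq_mul, mul_comm]
  congr 2
  funext j
  rw [Pi.single_apply]
  congr 1
  exact propext eq_comm

theorem isBrownianSheet_BB (d : ℕ) : IsBrownianSheet (fun x => BB (d := d) x) (PP d) := by
  have hG : IsGaussianProcess (fun x => BB (d := d) x) (PP d) := by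
    constructor
    intro I
    constructor
    exact isGaussian_of_isGK (isGK_BB (fun q : I => (q : Fin d → unitInterval)))
  have hmean : ∀ x : Fin d → unitInterval, ∫ ω, BB x ω ∂(PP d) = 0 := by
    intro x
    have h1 := map_lin (isGK_BB (fun _ : Unit => x)) (fun _ => 1)
    rw [AEMeasurable.map_map_of_aemeasurable
      (by fun_prop : Measurable (fun f : Unit → ℝ => ∑ x, 1 * f x)).aemeasurable
      (aemeasurable_pi_lambda _ fun z => aemeasurable_BB x)] at h1
    have h2 : ((fun f : Unit → ℝ => ∑ x, 1 * f x) ∘ fun (ω : Ix d → ℝ) (_ : Unit) => BB x ω)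
        = fun ω => BB x ω := by
      funext ω
      simp
    rw [h2] at h1
    have h3 : ∫ ω, BB x ω ∂(PP d) = ∫ y, y ∂((PP d).map (fun ω => BB x ω)) :=
      (integral_map (aemeasurable_BB x) aestronglyMeasurable_id).symm
    rw [h3, h1]
    exact integral_id_gaussianReal
  have hvar : ∀ x y : Fin d → unitInterval, Var[fun ω => BB x ω + BB y ω; PP d]
      = (∏ i, (x i : ℝ)) + 2 * ∏ i, min (x i : ℝ) (y i : ℝ) + ∏ i, (y i : ℝ) := by
    intro x y
    have h1 := map_lin (isGK_BB (fun b : Bool => if b then x else y)) (fun _ => 1)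
    have hq := quad_nonneg (isGK_BB (fun b : Bool => if b then x else y)) (fun _ => 1)
    rw [AEMeasurable.map_map_of_aemeasurable
      (by fun_prop : Measurable (fun f : Bool → ℝ => ∑ x, 1 * f x)).aemeasurable
      (aemeasurable_pi_lambda _ fun z => aemeasurable_BB _)] at h1
    have h2 : ((fun f : Bool → ℝ => ∑ x, 1 * f x) ∘ fun (ω : Ix d → ℝ) (b : Bool) =>
        BB (if b then x else y) ω) = fun ω => BB x ω + BB y ω := by
      funext ω
      simp
    rw [h2] at h1
    have h3 : Var[fun ω => BB x ω + BB y ω; PP d]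
        = Var[id; (PP d).map (fun ω => BB x ω + BB y ω)] := by
      have hs : AEMeasurable (fun ω => BB x ω + BB y ω) (PP d) :=
        (aemeasurable_BB x).add (aemeasurable_BB y)
      rw [variance_map aemeasurable_id hs]
      rfl
    rw [h3, h1, variance_id_gaussianReal, Real.coe_toNNReal _ hq]
    have h4 : ∀ u v : Fin d → unitInterval,
        ∏ i, min (u i : ℝ) (v i : ℝ) = ∏ i, min (v i : ℝ) (u i : ℝ) := by
      intro u v
      exact Finset.prod_congr rfl fun i _ => min_comm _ _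
    simp only [Fintype.sum_bool, if_true, Bool.false_eq_true, if_false, min_self, one_mul]
    rw [h4 y x]
    ring
  have hvar1 : ∀ x : Fin d → unitInterval, Var[fun ω => BB x ω; PP d] = ∏ i, (x i : ℝ) := by
    intro x
    have h1 := hvar x x
    simp only [min_self] at h1
    have h2 : (fun ω => BB x ω + BB x ω) = fun ω => (2 : ℝ) * BB (d := d) x ω := by
      funext ω
      ring
    rw [h2, variance_const_mul] at h1
    linarith
  refine ⟨hG, hmean, fun x y => ?_, continuous_BB⟩
  have hx : MemLp (fun ω => BB x ω) 2 (PP d) := (hG.hasGaussianLaw_eval x).memLp_two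
  have hy : MemLp (fun ω => BB y ω) 2 (PP d) := (hG.hasGaussianLaw_eval y).memLp_two
  have h1 := variance_fun_add hx hy
  rw [hvar, hvar1, hvar1] at h1
  have h2 : cov[fun ω => BB x ω, fun ω => BB y ω; PP d] = ∏ i, min (x i : ℝ) (y i : ℝ) := by
    linarith
  exact h2

theorem stmtExist : StmtExist := fun d =>
  ⟨Ix d → ℝ, inferInstance, PP d, fun x => BB x, isBrownianSheet_BB d⟩

end Sheet.Ex
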