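import Pool.Agent.Sheet.Skel

/-!
# SHEET, module EXIST, part 1: the one-dimensional basis
-/

open MeasureTheory ProbabilityTheory Filter Topology

namespace Sheet.Ex

lemma tentR_nonneg (z : ℝ) : 0 ≤ tentR z := le_max_left _ _

lemma tentR_le_one (z : ℝ) : tentR z ≤ 1 := by
  unfold tentR
  apply max_le (by norm_num)
  linarith [abs_nonneg (2 * z - 1)]

lemma tentR_of_nonpos {z : ℝ} (h : z ≤ 0) : tentR z = 0 := by
  unfold tentR
  apply max_eq_left
  rw [abs_of_nonpos (by linarith)]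
  linarith

lemma tentR_of_one_le {z : ℝ} (h : 1 ≤ z) : tentR z = 0 := by
  unfold tentR
  apply max_eq_left
  rw [abs_of_nonneg (by linarith)]
  linarith

lemma tentR_left {z : ℝ} (h0 : 0 ≤ z) (h : z ≤ 1 / 2) : tentR z = 2 * z := by
  unfold tentR
  rw [abs_of_nonpos (by linarith), max_eq_right (by linarith)]
  ring

lemma tentR_right {z : ℝ} (h0 : 1 / 2 ≤ z) (h : z ≤ 1) : tentR z = 2 * (1 - z) := by
  unfold tentR
  rw [abs_of_nonneg (by linarith), max_eq_right (by linarith)]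
  ring

lemma continuous_tentR : Continuous tentR := by
  unfold tentR
  fun_prop

/-- one-dimensional basis: level `0` is the linear function, level `j+1` the tents of level `j` -/
noncomputable def ph : ℕ → ℕ → ℝ → ℝ
  | 0, _ => fun t => t
  | j + 1, k => fun t => (1 / √2) ^ j / 2 * tentR (2 ^ j * t - k)

lemma continuous_ph (m k : ℕ) : Continuous (ph m k) := by
  cases m with
  | zero => exact continuous_id
  | succ j =>
    show Continuous fun t => (1 / √2) ^ j / 2 * tentR (2 ^ j * t - k)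
    exact continuous_const.mul (continuous_tentR.comp (by fun_prop))

lemma half_le : (1 : ℝ) / 2 ≤ 1 / √2 := by
  apply one_div_le_one_div_of_le (by positivity)
  rw [Real.sqrt_le_left (by norm_num)]
  norm_num

lemma ph_abs_le (m k : ℕ) {t : ℝ} (h0 : 0 ≤ t) (h1 : t ≤ 1) : |ph m k t| ≤ (1 / √2) ^ m := by
  cases m with
  | zero =>
    show |t| ≤ _
    rw [abs_of_nonneg h0, pow_zero]
    exact h1
  | succ j =>
    show |(1 / √2) ^ j / 2 * tentR (2 ^ j * t - k)| ≤ _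
    rw [abs_mul, abs_of_nonneg (by positivity), abs_of_nonneg (tentR_nonneg _)]
    calc (1 / √2) ^ j / 2 * tentR (2 ^ j * t - k)
        ≤ (1 / √2) ^ j / 2 * 1 := by gcongr; exact tentR_le_one _
      _ = (1 / √2) ^ j * (1 / 2) := by ring
      _ ≤ (1 / √2) ^ j * (1 / √2) := mul_le_mul_of_nonneg_left half_le (by positivity)
      _ = (1 / √2) ^ (j + 1) := by ring

lemma tent_single (j : ℕ) (t : ℝ) (k : ℕ) (hk : k ≠ ⌊2 ^ j * t⌋₊) (h0 : 0 ≤ t) :
    tentR (2 ^ j * t - k) = 0 := by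
  have hx : (0 : ℝ) ≤ 2 ^ j * t := by positivity
  rcases lt_or_gt_of_ne hk with h | h
  · apply tentR_of_one_le
    have h2 : ((k + 1 : ℕ) : ℝ) ≤ (⌊2 ^ j * t⌋₊ : ℝ) := by exact_mod_cast h
    have h3 := Nat.floor_le hx
    push_cast at h2
    linarith
  · apply tentR_of_nonpos
    have h2 : ((⌊2 ^ j * t⌋₊ + 1 : ℕ) : ℝ) ≤ (k : ℝ) := by exact_mod_cast h
    have h3 := Nat.lt_floor_add_one (2 ^ j * t)
    push_cast at h2
    linarith

lemma ph_single (m : ℕ) {t : ℝ} (h0 : 0 ≤ t) :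
    ∃ k0, ∀ k < 2 ^ (m - 1), k ≠ k0 → ph m k t = 0 := by
  cases m with
  | zero =>
    refine ⟨0, fun k hk hne => ?_⟩
    simp at hk
    omega
  | succ j =>
    refine ⟨⌊2 ^ j * t⌋₊, fun k _ hne => ?_⟩
    show (1 / √2) ^ j / 2 * tentR (2 ^ j * t - k) = 0
    rw [tent_single j t k hne h0, mul_zero]

/-- one-dimensional kernel of level `m` -/
noncomputable def c1 (m : ℕ) (s t : ℝ) : ℝ := ∑ k ∈ Finset.range (2 ^ (m - 1)), ph m k s * ph m k t

/-- Brownian bridge covariance, extended by zero -/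
noncomputable def bb (s t : ℝ) : ℝ :=
  if (0 ≤ s ∧ s ≤ 1) ∧ (0 ≤ t ∧ t ≤ 1) then min s t - s * t else 0

lemma bb_of_mem {s t : ℝ} (hs : 0 ≤ s ∧ s ≤ 1) (ht : 0 ≤ t ∧ t ≤ 1) : bb s t = min s t - s * t :=
  if_pos ⟨hs, ht⟩

lemma bb_left {s t : ℝ} (hs : ¬ (0 < s ∧ s < 1)) : bb s t = 0 := by
  unfold bb
  split_ifs with h
  · obtain ⟨⟨h1, h2⟩, h3, h4⟩ := h
    by_cases h5 : 0 < s
    · have h6 : s = 1 := le_antisymm h2 (not_lt.mp fun h => hs ⟨h5, h⟩)
      subst h6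
      rw [min_eq_right h4]
      ring
    · have h6 : s = 0 := le_antisymm (not_lt.mp h5) h1
      subst h6
      rw [min_eq_left h3]
      ring
  · rfl

lemma bb_comm (s t : ℝ) : bb s t = bb t s := by
  unfold bb
  rw [min_comm, mul_comm]
  congr 1
  exact propext and_comm

lemma bb_right {s t : ℝ} (ht : ¬ (0 < t ∧ t < 1)) : bb s t = 0 := by
  rw [bb_comm]
  exact bb_left ht

lemma tentR_zero_of {s : ℝ} (hs : ¬ (0 < s ∧ s < 1)) : tentR s = 0 := by
  by_cases h : 0 < s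
  · exact tentR_of_one_le (not_lt.mp fun h' => hs ⟨h, h'⟩)
  · exact tentR_of_nonpos (not_lt.mp h)

lemma bb_step (s t : ℝ) :
    bb s t = 1 / 4 * (tentR s * tentR t) + 1 / 2 * bb (2 * s) (2 * t)
      + 1 / 2 * bb (2 * s - 1) (2 * t - 1) := by
  by_cases hs : 0 < s ∧ s < 1
  swap
  · rw [bb_left hs, tentR_zero_of hs, bb_left (s := 2 * s), bb_left (s := 2 * s - 1)]
    · ring
    · rintro ⟨h1, h2⟩
      exact hs ⟨by linarith, by linarith⟩
    · rintro ⟨h1, h2⟩
      exact hs ⟨by linarith, by linarith⟩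
  by_cases ht : 0 < t ∧ t < 1
  swap
  · rw [bb_right ht, tentR_zero_of ht, bb_right (t := 2 * t), bb_right (t := 2 * t - 1)]
    · ring
    · rintro ⟨h1, h2⟩
      exact ht ⟨by linarith, by linarith⟩
    · rintro ⟨h1, h2⟩
      exact ht ⟨by linarith, by linarith⟩
  obtain ⟨hs0, hs1⟩ := hs
  obtain ⟨ht0, ht1⟩ := ht
  rw [bb_of_mem ⟨hs0.le, hs1.le⟩ ⟨ht0.le, ht1.le⟩]
  rcases le_total s (1 / 2) with h1 | h1 <;> rcases le_total t (1 / 2) with h2 | h2
  · rw [tentR_left hs0.le h1, tentR_left ht0.le h2,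
      bb_of_mem (s := 2 * s) (t := 2 * t) ⟨by linarith, by linarith⟩ ⟨by linarith, by linarith⟩,
      bb_left (s := 2 * s - 1) (by rintro ⟨h, _⟩; linarith)]
    rcases le_total s t with h | h
    · rw [min_eq_left h, min_eq_left (by linarith)]; ring
    · rw [min_eq_right h, min_eq_right (by linarith)]; ring
  · rw [tentR_left hs0.le h1, tentR_right h2 ht1.le,
      bb_right (s := 2 * s) (t := 2 * t) (by rintro ⟨_, h⟩; linarith),
      bb_left (s := 2 * s - 1) (by rintro ⟨h, _⟩; linarith), min_eq_left (by linarith)]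
    ring
  · rw [tentR_right h1 hs1.le, tentR_left ht0.le h2,
      bb_left (s := 2 * s) (t := 2 * t) (by rintro ⟨_, h⟩; linarith),
      bb_right (t := 2 * t - 1) (by rintro ⟨h, _⟩; linarith), min_eq_right (by linarith)]
    ring
  · rw [tentR_right h1 hs1.le, tentR_right h2 ht1.le,
      bb_left (s := 2 * s) (t := 2 * t) (by rintro ⟨_, h⟩; linarith),
      bb_of_mem (s := 2 * s - 1) (t := 2 * t - 1) ⟨by linarith, by linarith⟩
        ⟨by linarith, by linarith⟩]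
    rcases le_total s t with h | h
    · rw [min_eq_left h, min_eq_left (by linarith)]; ring
    · rw [min_eq_right h, min_eq_right (by linarith)]; ring

lemma sum_two_mul (F : ℕ → ℝ) (N : ℕ) :
    ∑ k ∈ Finset.range (2 * N), F k = ∑ k ∈ Finset.range N, (F (2 * k) + F (2 * k + 1)) := by
  induction N with
  | zero => simp
  | succ N ih =>
    rw [show 2 * (N + 1) = 2 * N + 1 + 1 by ring, Finset.sum_range_succ, Finset.sum_range_succ, ih,
      Finset.sum_range_succ]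
    ring

lemma bb_expand (n : ℕ) (s t : ℝ) :
    bb s t = ∑ j ∈ Finset.range n, 1 / 4 * (1 / 2) ^ j *
        ∑ k ∈ Finset.range (2 ^ j), tentR (2 ^ j * s - k) * tentR (2 ^ j * t - k)
      + (1 / 2) ^ n * ∑ k ∈ Finset.range (2 ^ n), bb (2 ^ n * s - k) (2 ^ n * t - k) := by
  induction n with
  | zero => simp
  | succ n ih =>
    rw [ih, Finset.sum_range_succ, add_assoc]
    congr 1
    rw [pow_succ 2 n, mul_comm (2 ^ n) 2, sum_two_mul]
    have h : ∀ k ∈ Finset.range (2 ^ n), bb (2 ^ n * s - k) (2 ^ n * t - k)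
        = 1 / 4 * (tentR (2 ^ n * s - k) * tentR (2 ^ n * t - k))
          + 1 / 2 * (bb (2 ^ (n + 1) * s - (2 * k : ℕ)) (2 ^ (n + 1) * t - (2 * k : ℕ))
            + bb (2 ^ (n + 1) * s - (2 * k + 1 : ℕ)) (2 ^ (n + 1) * t - (2 * k + 1 : ℕ))) := by
      intro k _
      rw [bb_step]
      have e1 : 2 * (2 ^ n * s - (k : ℝ)) = 2 ^ (n + 1) * s - ((2 * k : ℕ) : ℝ) := by
        push_cast; ring
      have e2 : 2 * (2 ^ n * t - (k : ℝ)) = 2 ^ (n + 1) * t - ((2 * k : ℕ) : ℝ) := by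
        push_cast; ring
      have e3 : 2 ^ (n + 1) * s - ((2 * k : ℕ) : ℝ) - 1 = 2 ^ (n + 1) * s - ((2 * k + 1 : ℕ) : ℝ) := by
        push_cast; ring
      have e4 : 2 ^ (n + 1) * t - ((2 * k : ℕ) : ℝ) - 1 = 2 ^ (n + 1) * t - ((2 * k + 1 : ℕ) : ℝ) := by
        push_cast; ring
      rw [e1, e2, e3, e4]
      ring
    rw [Finset.sum_congr rfl h, Finset.sum_add_distrib, ← Finset.mul_sum, ← Finset.mul_sum]
    ring

lemma bb_nonneg (s t : ℝ) : 0 ≤ bb s t := by
  unfold bb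
  split_ifs with h
  · obtain ⟨⟨h1, h2⟩, h3, h4⟩ := h
    rcases le_total s t with h | h
    · rw [min_eq_left h]; nlinarith
    · rw [min_eq_right h]; nlinarith
  · exact le_rfl

lemma bb_le (s t : ℝ) : bb s t ≤ tentR s := by
  by_cases hs : 0 < s ∧ s < 1
  swap
  · rw [bb_left hs]; exact tentR_nonneg _
  by_cases ht : 0 < t ∧ t < 1
  swap
  · rw [bb_right ht]; exact tentR_nonneg _
  obtain ⟨hs0, hs1⟩ := hs
  obtain ⟨ht0, ht1⟩ := ht
  rw [bb_of_mem ⟨hs0.le, hs1.le⟩ ⟨ht0.le, ht1.le⟩]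
  have h1 := min_le_left s t
  have h2 := min_le_right s t
  rcases le_total s (1 / 2) with h | h
  · rw [tentR_left hs0.le h]; nlinarith
  · rw [tentR_right h hs1.le]; nlinarith

lemma sum_tent_le (n : ℕ) {t : ℝ} (h0 : 0 ≤ t) :
    ∑ k ∈ Finset.range (2 ^ n), tentR (2 ^ n * t - k) ≤ 1 := by
  by_cases h : ⌊2 ^ n * t⌋₊ ∈ Finset.range (2 ^ n)
  · rw [Finset.sum_eq_single_of_mem _ h]
    · exact tentR_le_one _
    · intro k _ hk
      exact tent_single n t k hk h0
  · rw [Finset.sum_eq_zero]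
    · norm_num
    · intro k hk
      apply tent_single n t k _ h0
      rintro rfl
      exact h hk

lemma c1_nonneg (m : ℕ) {s t : ℝ} (hs : 0 ≤ s) (ht : 0 ≤ t) : 0 ≤ c1 m s t := by
  apply Finset.sum_nonneg
  intro k _
  cases m with
  | zero => exact mul_nonneg hs ht
  | succ j =>
    show 0 ≤ (1 / √2) ^ j / 2 * tentR (2 ^ j * s - k) * ((1 / √2) ^ j / 2 * tentR (2 ^ j * t - k))
    have h1 := tentR_nonneg (2 ^ j * s - k)
    have h2 := tentR_nonneg (2 ^ j * t - k)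
    positivity

lemma c1_succ (j : ℕ) (s t : ℝ) :
    c1 (j + 1) s t = 1 / 4 * (1 / 2) ^ j *
        ∑ k ∈ Finset.range (2 ^ j), tentR (2 ^ j * s - k) * tentR (2 ^ j * t - k) := by
  unfold c1
  rw [Nat.add_sub_cancel, Finset.mul_sum]
  apply Finset.sum_congr rfl
  intro k _
  show (1 / √2) ^ j / 2 * tentR (2 ^ j * s - k) * ((1 / √2) ^ j / 2 * tentR (2 ^ j * t - k)) = _
  have h : ((1 : ℝ) / √2) ^ j * (1 / √2) ^ j = (1 / 2) ^ j := by
    rw [← mul_pow]
    congr 1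
    rw [div_mul_div_comm, Real.mul_self_sqrt (by norm_num)]
    norm_num
  rw [← h]
  ring

lemma tendsto_c1 {s t : ℝ} (hs : 0 ≤ s ∧ s ≤ 1) (ht : 0 ≤ t ∧ t ≤ 1) :
    Tendsto (fun n => ∑ m ∈ Finset.range n, c1 m s t) atTop (𝓝 (min s t)) := by
  rw [← tendsto_add_atTop_iff_nat 1]
  have key : ∀ n, ∑ m ∈ Finset.range (n + 1), c1 m s t
      = min s t - (1 / 2) ^ n * ∑ k ∈ Finset.range (2 ^ n), bb (2 ^ n * s - k) (2 ^ n * t - k) := by
    intro n
    rw [Finset.sum_range_succ']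
    have h0 : c1 0 s t = s * t := by simp [c1, ph]
    have h1 := bb_expand n s t
    rw [bb_of_mem hs ht] at h1
    simp only [c1_succ]
    rw [h0]
    linarith
  simp only [key]
  have h3 : Tendsto (fun n : ℕ => (1 / 2 : ℝ) ^ n *
      ∑ k ∈ Finset.range (2 ^ n), bb (2 ^ n * s - k) (2 ^ n * t - k)) atTop (𝓝 0) := by
    apply squeeze_zero (g := fun n : ℕ => (1 / 2 : ℝ) ^ n)
    · intro n
      exact mul_nonneg (by positivity) (Finset.sum_nonneg fun k _ => bb_nonneg _ _)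
    · intro n
      have h4 : ∑ k ∈ Finset.range (2 ^ n), bb (2 ^ n * s - k) (2 ^ n * t - k) ≤ 1 :=
        (Finset.sum_le_sum fun k _ => bb_le _ _).trans (sum_tent_le n hs.1)
      calc (1 / 2 : ℝ) ^ n * ∑ k ∈ Finset.range (2 ^ n), bb (2 ^ n * s - k) (2 ^ n * t - k)
          ≤ (1 / 2 : ℝ) ^ n * 1 := by gcongr
        _ = _ := mul_one _
    · exact tendsto_pow_atTop_nhds_zero_of_lt_one (by norm_num) (by norm_num)
  simpa using tendsto_const_nhds.sub h3

end Sheet.Ex
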